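import Pool.Agent.NDR.StmtsL

set_option autoImplicit false

namespace Pool.Agent.NDR.H13

open Finset

theorem lpa_lb {σ : Type} [Fintype σ] (f : σ → ℚ) (hf : ∀ i, 0 < f i) :
    ∃ γ : ℚ, 0 < γ ∧ ∀ i, γ ≤ f i := by
  rcases isEmpty_or_nonempty σ with h | h
  · exact ⟨1, one_pos, fun i => (h.false i).elim⟩
  · obtain ⟨i, hi⟩ := Finite.exists_min f
    exact ⟨f i, hf i, hi⟩

theorem lpa (hlex : LexStmt) (hppl : PplStmt) (hgnb : GnbStmt) : LpaStmt := by
  classical
  intro σ _ A B I hF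
  have hocc : ∀ i ∈ I, ∃ a ∈ A, a i ≠ 0 := by
    intro i hi
    by_contra hcon
    push_neg at hcon
    have h1 := hF.flat (fun j => if j = i then 1 else 0)
      (fun j hj => if_neg (fun h : j = i => hj (by rw [h]; exact hi)))
      (fun b hb => by
        unfold dq
        refine Finset.sum_eq_zero fun j _ => ?_
        show (if j = i then (1 : ℚ) else 0) * ((b j : ℕ) : ℚ) = 0
        by_cases h : j = i
        · rw [h, hcon b (hF.sub hb)]
          simp
        · rw [if_neg h, zero_mul])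
    rw [Finset.sum_ite_eq' Finset.univ i] at h1
    simp at h1
  obtain ⟨y, hy, hmu⟩ := hlex σ A I hocc
  have hy1 : ∀ k, y k ≤ 1 := by
    intro k
    by_cases hk : k ∈ I
    · obtain ⟨a, ha, hak⟩ := hocc k hk
      have h1 := hy.le a ha
      have h2 : y k * (a k : ℚ) ≤ dq y a := by
        unfold dq
        exact Finset.single_le_sum (f := fun i => y i * (a i : ℚ))
          (fun i _ => mul_nonneg (hy.nn i) (Nat.cast_nonneg _)) (Finset.mem_univ k)
      have h3 : (1 : ℚ) ≤ (a k : ℚ) := by exact_mod_cast Nat.one_le_iff_ne_zero.2 hak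
      have h4 : y k * 1 ≤ y k * (a k : ℚ) := mul_le_mul_of_nonneg_left h3 (hy.nn k)
      linarith
    · rw [hy.off k hk]
      exact zero_le_one
  obtain ⟨γ, hγ, hγ2⟩ := lpa_lb (fun k => min (if y k < 1 then 1 - y k else 1)
    (if 0 < y k then y k else 1)) (fun k => by
      refine lt_min ?_ ?_
      · split_ifs with h
        · linarith
        · exact one_pos
      · split_ifs with h
        · exact h
        · exact one_pos)
  have hγ3 : 0 < γ / 3 := by linarith
  obtain ⟨μ₀, hm0, hm1, hm2, hm3⟩ := hmu (γ / 3) hγ3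
  have hPI : Finset.univ.filter (fun i => 0 < y i) ⊆ I := by
    intro i hi
    rw [Finset.mem_filter] at hi
    by_contra h
    have := hy.off i h
    linarith [hi.2]
  obtain ⟨Q, μ₁, hPQ, hQI, hn0, hn1, hn2, hn3⟩ := hppl σ A I
    (Finset.univ.filter (fun i => 0 < y i)) μ₀ (γ / 3) hγ3 hPI hm0 hm1
    (fun i hi => hm2 i (Finset.mem_filter.1 hi).2)
  obtain ⟨μ, hk0, hk1, hk2, hk3, hk4⟩ := hgnb σ A I Q μ₁ (γ / 3) hγ3 hQI
    (fun v hv hva => hF.flat v hv fun b hb => hva b (hF.sub hb)) hn0 hn1 hn2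
  have hQ : ∀ i, 0 < y i → i ∈ Q := fun i hi => hPQ (Finset.mem_filter.2 ⟨Finset.mem_univ i, hi⟩)
  have hsum : ∑ a ∈ A, μ a - ∑ i, y i < γ := by linarith
  refine ⟨y, fun i => cmb A μ i, μ, hy, ?_, hy1⟩
  refine ⟨hk0, fun i _ => rfl, fun i hi => hk1 i (hQ i hi), fun i hi => ?_, fun i hi hz => ?_,
    fun k _ hk => ?_, fun k hk => ?_, ?_⟩
  · by_cases h : i ∈ Q
    · exact le_of_eq (hk1 i h).symm
    · exact (hk2 i hi h).1.le
  · by_cases h : i ∈ Q
    · exact hk1 i h
    · obtain ⟨z, hz⟩ := hz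
      exact absurd hz ((hk2 i hi h).2 z)
  · have h1 := (hγ2 k).trans (min_le_left _ _)
    rw [if_pos hk] at h1
    linarith
  · have h1 := (hγ2 k).trans (min_le_right _ _)
    rw [if_pos hk] at h1
    linarith
  · intro q hq hν v hv hva
    obtain ⟨ν, hν0, hν1⟩ := hν
    refine hk4 q hq ν hν0 hν1 v hv fun a ha h => hva a ha fun i hi hqi => h i (hQ i hi) hqi

end Pool.Agent.NDR.H13
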