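import Pool.Agent.NDR.StmtsM
import Pool.Agent.Helper13_NDL.LPA

set_option autoImplicit false

namespace Pool.Agent.NDR.H13

open Finset

theorem lpr (hlex : LexStmt) (hppl : PplStmt) (hgnr : GnrStmt) : LprStmt := by
  classical
  intro σ _ A B I hF
  have hocc : ∀ i ∈ I, ∃ a ∈ A, a i ≠ 0 := by
    intro i hi
    by_contra hcon
    push_neg at hcon
    have h1 := hF.flat (fun j => if j = i then 1 else 0)
      (fun j hj => if_neg (fun h : j = i => hj (by rw [h]; exact hi)))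
      (fun b hb => by
        unfold dq
        refine Finset.sum_eq_zero fun j _ => ?_
        show (if j = i then (1 : ℚ) else 0) * ((b j : ℕ) : ℚ) = 0
        by_cases h : j = i
        · rw [h, hcon b (hF.sub hb)]
          simp
        · rw [if_neg h, zero_mul])
    rw [Finset.sum_ite_eq' Finset.univ i] at h1
    simp at h1
  obtain ⟨y, hy, hmu⟩ := hlex σ A I hocc
  have hy1 : ∀ k, y k ≤ 1 := by
    intro k
    by_cases hk : k ∈ I
    · obtain ⟨a, ha, hak⟩ := hocc k hk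
      have h1 := hy.le a ha
      have h2 : y k * (a k : ℚ) ≤ dq y a := by
        unfold dq
        exact Finset.single_le_sum (f := fun i => y i * (a i : ℚ))
          (fun i _ => mul_nonneg (hy.nn i) (Nat.cast_nonneg _)) (Finset.mem_univ k)
      have h3 : (1 : ℚ) ≤ (a k : ℚ) := by exact_mod_cast Nat.one_le_iff_ne_zero.2 hak
      have h4 : y k * 1 ≤ y k * (a k : ℚ) := mul_le_mul_of_nonneg_left h3 (hy.nn k)
      linarith
    · rw [hy.off k hk]
      exact zero_le_one
  obtain ⟨γ, hγ, hγ2⟩ := lpa_lb (fun k => min (if y k < 1 then 1 - y k else 1)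
    (if 0 < y k then y k else 1)) (fun k => by
      refine lt_min ?_ ?_
      · split_ifs with h
        · linarith
        · exact one_pos
      · split_ifs with h
        · exact h
        · exact one_pos)
  have hγ3 : 0 < γ / 3 := by linarith
  obtain ⟨μ₀, hm0, hm1, hm2, hm3⟩ := hmu (γ / 3) hγ3
  have hPI : Finset.univ.filter (fun i => 0 < y i) ⊆ I := by
    intro i hi
    rw [Finset.mem_filter] at hi
    by_contra h
    have := hy.off i h
    linarith [hi.2]
  obtain ⟨Q, μ₁, hPQ, hQI, hn0, hn1, hn2, hn3⟩ := hppl σ A I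
    (Finset.univ.filter (fun i => 0 < y i)) μ₀ (γ / 3) hγ3 hPI hm0 hm1
    (fun i hi => hm2 i (Finset.mem_filter.1 hi).2)
  obtain ⟨μ, hk0, hk1, hk2, hk3, hk4⟩ := hgnr σ A I Q μ₁ (γ / 3) hγ3 hQI hn0 hn1 hn2
  have hQ : ∀ i, 0 < y i → i ∈ Q := fun i hi => hPQ (Finset.mem_filter.2 ⟨Finset.mem_univ i, hi⟩)
  have hle : ∑ a ∈ A, μ₁ a + γ / 3 < ∑ i, y i + γ := by linarith
  have hleR : ∑ a ∈ A, (μ₁ a : ℝ) + ((γ / 3 : ℚ) : ℝ) < ∑ i, (y i : ℝ) + (γ : ℝ) := by
    exact_mod_cast hle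
  have hsum : ∑ a ∈ A, μ a - ∑ i, (y i : ℝ) < (γ : ℝ) := by linarith
  refine ⟨y, Q, μ, hy, hy1, hQ, hQI, hk0, hk1, fun i hi => ?_, fun k _ hk => ?_, fun k hk => ?_,
    hk4⟩
  · by_cases h : i ∈ Q
    · exact le_of_eq (hk1 i h).symm
    · exact (hk2 i hi h).le
  · have h1 := (hγ2 k).trans (min_le_left _ _)
    rw [if_pos hk] at h1
    have h2 : (γ : ℝ) ≤ 1 - (y k : ℝ) := by exact_mod_cast h1
    linarith
  · have h1 := (hγ2 k).trans (min_le_right _ _)
    rw [if_pos hk] at h1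
    have h2 : (γ : ℝ) ≤ (y k : ℝ) := by exact_mod_cast h1
    linarith

end Pool.Agent.NDR.H13
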