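import Pool.Agent.NDR.StmtsL

set_option autoImplicit false

namespace Pool.Agent.NDR.H13

open Finset

theorem mnf_den {σ : Type} [Fintype σ] (v : σ → ℚ) :
    ∃ D : ℕ, 0 < D ∧ ∃ w : σ → ℤ, ∀ i, (w i : ℚ) = (D : ℚ) * v i := by
  classical
  refine ⟨∏ j, (v j).den, Finset.prod_pos fun j _ => (v j).den_pos,
    fun i => ((∏ j ∈ Finset.univ.erase i, (v j).den : ℕ) : ℤ) * (v i).num, fun i => ?_⟩
  have h1 : (∏ j, (v j).den) = (v i).den * ∏ j ∈ Finset.univ.erase i, (v j).den :=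
    (Finset.mul_prod_erase Finset.univ (fun j => (v j).den) (Finset.mem_univ i)).symm
  rw [h1, Int.cast_mul, Int.cast_natCast, Nat.cast_mul]
  have h2 : ((v i).num : ℚ) = v i * ((v i).den : ℚ) := (Rat.mul_den_eq_num (v i)).symm
  rw [h2]
  ring

/-- the first five properties -/
def MnfP {σ : Type} [Fintype σ] (M B : Finset (σ →₀ ℕ)) (κ : σ → ℕ) (N : ℕ) (κ' : σ → ℕ)
    (N' : ℕ) : Prop :=
  0 < N' ∧ (∀ i, κ' i = 0 ↔ κ i = 0) ∧
    (∀ a ∈ M, N' ≤ ∑ i, κ' i * a i) ∧ (∀ b ∈ B, ∑ i, κ' i * b i = N') ∧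
    (∑ i, κ' i) * N = (∑ i, κ i) * N'

theorem mnf_step {σ : Type} [Fintype σ] (M B : Finset (σ →₀ ℕ)) (κ : σ → ℕ) (N : ℕ)
    (hBM : B ⊆ M)
    (hflat : ∀ v : σ → ℚ, (∀ i, κ i = 0 → v i = 0) → (∀ b ∈ B, dq v b = 0) → ∑ i, v i = 0)
    (κ' : σ → ℕ) (N' : ℕ) (hP : MnfP M B κ N κ' N') (v : σ → ℚ) (hv0 : ∀ i, κ i = 0 → v i = 0)
    (hv1 : ∀ a ∈ M, ∑ i, κ' i * a i = N' → 0 ≤ dq v a) (hv2 : ∀ b ∈ B, dq v b = 0)
    (a₀ : σ →₀ ℕ) (ha₀ : a₀ ∈ M) (ha₁ : ∑ i, κ' i * a₀ i = N') (ha₂ : dq v a₀ ≠ 0) :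
    ∃ (κ'' : σ → ℕ) (N'' : ℕ), MnfP M B κ N κ'' N'' ∧
      (M.filter fun a => ∑ i, κ'' i * a i = N'').card <
        (M.filter fun a => ∑ i, κ' i * a i = N').card := by
  classical
  obtain ⟨p1, p2, p3, p4, p5⟩ := hP
  obtain ⟨D, hD, w, hw⟩ := mnf_den v
  have hDq : (0 : ℚ) < (D : ℚ) := by exact_mod_cast hD
  -- pairing with w
  have hwa : ∀ a : σ →₀ ℕ, ((∑ i, w i * (a i : ℤ) : ℤ) : ℚ) = (D : ℚ) * dq v a := by
    intro a
    unfold dq
    rw [Finset.mul_sum, Int.cast_sum]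
    refine Finset.sum_congr rfl fun i _ => ?_
    rw [Int.cast_mul, hw i, Int.cast_natCast]
    ring
  have hw0 : ∀ i, κ i = 0 → w i = 0 := by
    intro i hi
    have h1 := hw i
    rw [hv0 i hi, mul_zero] at h1
    exact_mod_cast h1
  have hwb : ∀ b ∈ B, ∑ i, w i * (b i : ℤ) = 0 := by
    intro b hb
    have h1 := hwa b
    rw [hv2 b hb, mul_zero] at h1
    exact_mod_cast h1
  have hwf : ∀ a ∈ M, ∑ i, κ' i * a i = N' → 0 ≤ ∑ i, w i * (a i : ℤ) := by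
    intro a ha h
    have h1 : (0 : ℚ) ≤ ((∑ i, w i * (a i : ℤ) : ℤ) : ℚ) := by
      rw [hwa a]
      exact mul_nonneg hDq.le (hv1 a ha h)
    exact_mod_cast h1
  have hwa0 : ∑ i, w i * (a₀ i : ℤ) ≠ 0 := by
    intro h
    have h1 := hwa a₀
    rw [h, Int.cast_zero] at h1
    rcases mul_eq_zero.1 h1.symm with h2 | h2
    · exact hDq.ne' h2
    · exact ha₂ h2
  have hws : ∑ i, w i = 0 := by
    have h1 : ((∑ i, w i : ℤ) : ℚ) = 0 := by
      rw [Int.cast_sum, Finset.sum_congr rfl fun i _ => hw i, ← Finset.mul_sum,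
        hflat v hv0 hv2, mul_zero]
    exact_mod_cast h1
  -- the constant
  let C : ℕ := 1 + ∑ i, (w i).natAbs + ∑ a ∈ M, (∑ i, w i * (a i : ℤ)).natAbs
  have hC0 : 0 < C := by
    show 0 < 1 + ∑ i, (w i).natAbs + ∑ a ∈ M, (∑ i, w i * (a i : ℤ)).natAbs
    omega
  have hC1 : ∀ i, |w i| < (C : ℤ) := by
    intro i
    have h1 : (w i).natAbs ≤ ∑ i, (w i).natAbs :=
      Finset.single_le_sum (f := fun i => (w i).natAbs) (fun _ _ => Nat.zero_le _)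
        (Finset.mem_univ i)
    have h2 : (w i).natAbs < C := by
      show (w i).natAbs < 1 + ∑ i, (w i).natAbs + ∑ a ∈ M, (∑ i, w i * (a i : ℤ)).natAbs
      omega
    rw [Int.abs_eq_natAbs]
    exact_mod_cast h2
  have hC2 : ∀ a ∈ M, |∑ i, w i * (a i : ℤ)| < (C : ℤ) := by
    intro a ha
    have h1 : (∑ i, w i * (a i : ℤ)).natAbs ≤ ∑ a ∈ M, (∑ i, w i * (a i : ℤ)).natAbs :=
      Finset.single_le_sum (f := fun a : σ →₀ ℕ => (∑ i, w i * (a i : ℤ)).natAbs)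
        (fun _ _ => Nat.zero_le _) ha
    have h2 : (∑ i, w i * (a i : ℤ)).natAbs < C := by
      show _ < 1 + ∑ i, (w i).natAbs + ∑ a ∈ M, (∑ i, w i * (a i : ℤ)).natAbs
      omega
    rw [Int.abs_eq_natAbs]
    exact_mod_cast h2
  have hCp : (0 : ℤ) < (C : ℤ) := by exact_mod_cast hC0
  -- the new weights
  let k2 : σ → ℕ := fun i => ((C : ℤ) * (κ' i : ℤ) + w i).toNat
  have hk2 : ∀ i, ((k2 i : ℕ) : ℤ) = (C : ℤ) * (κ' i : ℤ) + w i := by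
    intro i
    show ((((C : ℤ) * (κ' i : ℤ) + w i).toNat : ℕ) : ℤ) = (C : ℤ) * (κ' i : ℤ) + w i
    apply Int.toNat_of_nonneg
    by_cases h : κ i = 0
    · rw [(p2 i).2 h, hw0 i h]
      simp
    · have h1 : 1 ≤ κ' i := Nat.one_le_iff_ne_zero.2 fun h' => h ((p2 i).1 h')
      have h1' : (1 : ℤ) ≤ (κ' i : ℤ) := by exact_mod_cast h1
      have h2 := (abs_lt.1 (hC1 i)).1
      nlinarith
  have hk3 : ∀ a : σ →₀ ℕ, (((∑ i, k2 i * a i : ℕ)) : ℤ)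
      = (C : ℤ) * ((∑ i, κ' i * a i : ℕ) : ℤ) + ∑ i, w i * (a i : ℤ) := by
    intro a
    push_cast
    rw [Finset.mul_sum, ← Finset.sum_add_distrib]
    refine Finset.sum_congr rfl fun i _ => ?_
    rw [hk2 i]
    ring
  -- value on the elements of M which are not in the old face
  have hout : ∀ a ∈ M, ∑ i, κ' i * a i ≠ N' → C * N' < ∑ i, k2 i * a i := by
    intro a ha h
    have h1 : N' + 1 ≤ ∑ i, κ' i * a i := Nat.lt_of_le_of_ne (p3 a ha) (Ne.symm h)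
    have h1' : (N' : ℤ) + 1 ≤ ((∑ i, κ' i * a i : ℕ) : ℤ) := by exact_mod_cast h1
    have h2 := (abs_lt.1 (hC2 a ha)).1
    have h3 := hk3 a
    have h4 : ((C * N' : ℕ) : ℤ) < ((∑ i, k2 i * a i : ℕ) : ℤ) := by
      rw [h3]
      push_cast at h1' ⊢
      nlinarith
    exact_mod_cast h4
  have hin : ∀ a ∈ M, ∑ i, κ' i * a i = N' →
      ((∑ i, k2 i * a i : ℕ) : ℤ) = ((C * N' : ℕ) : ℤ) + ∑ i, w i * (a i : ℤ) := by
    intro a ha h
    rw [hk3 a, h]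
    push_cast
    ring
  refine ⟨k2, C * N', ⟨Nat.mul_pos hC0 p1, ?_, ?_, ?_, ?_⟩, ?_⟩
  · intro i
    constructor
    · intro h
      by_contra h'
      have h1 : 1 ≤ κ' i := Nat.one_le_iff_ne_zero.2 fun h'' => h' ((p2 i).1 h'')
      have h1' : (1 : ℤ) ≤ (κ' i : ℤ) := by exact_mod_cast h1
      have h2 := (abs_lt.1 (hC1 i)).1
      have h3 := hk2 i
      rw [h] at h3
      push_cast at h3
      nlinarith
    · intro h
      have h3 := hk2 i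
      rw [(p2 i).2 h, hw0 i h] at h3
      have h4 : ((k2 i : ℕ) : ℤ) = 0 := by
        rw [h3]
        simp
      exact_mod_cast h4
  · intro a ha
    by_cases h : ∑ i, κ' i * a i = N'
    · have h1 := hin a ha h
      have h2 := hwf a ha h
      have h3 : ((C * N' : ℕ) : ℤ) ≤ ((∑ i, k2 i * a i : ℕ) : ℤ) := by
        rw [h1]
        linarith
      exact_mod_cast h3
    · exact (hout a ha h).le
  · intro b hb
    have h1 := hin b (hBM hb) (p4 b hb)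
    rw [hwb b hb, add_zero] at h1
    exact_mod_cast h1
  · have h1 : ((∑ i, k2 i : ℕ) : ℤ) = (C : ℤ) * ((∑ i, κ' i : ℕ) : ℤ) := by
      push_cast
      rw [Finset.sum_congr rfl fun i _ => hk2 i, Finset.sum_add_distrib, hws, add_zero,
        ← Finset.mul_sum]
    have h2 : ((∑ i, κ' i : ℕ) : ℤ) * (N : ℤ) = ((∑ i, κ i : ℕ) : ℤ) * (N' : ℤ) := by
      exact_mod_cast p5
    have h3 : (((∑ i, k2 i) * N : ℕ) : ℤ) = (((∑ i, κ i) * (C * N') : ℕ) : ℤ) := by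
      rw [Nat.cast_mul, h1, Nat.cast_mul, Nat.cast_mul]
      calc (C : ℤ) * ((∑ i, κ' i : ℕ) : ℤ) * (N : ℤ)
          = (C : ℤ) * (((∑ i, κ' i : ℕ) : ℤ) * (N : ℤ)) := by ring
        _ = (C : ℤ) * (((∑ i, κ i : ℕ) : ℤ) * (N' : ℤ)) := by rw [h2]
        _ = _ := by ring
    exact_mod_cast h3
  · apply Finset.card_lt_card
    rw [Finset.ssubset_iff_of_subset]
    · refine ⟨a₀, Finset.mem_filter.2 ⟨ha₀, ha₁⟩, fun h => ?_⟩
      have h1 := (Finset.mem_filter.1 h).2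
      have h2 := hin a₀ ha₀ ha₁
      rw [h1] at h2
      exact hwa0 (by linarith)
    · intro a ha
      rw [Finset.mem_filter] at ha ⊢
      refine ⟨ha.1, ?_⟩
      by_contra h
      have := hout a ha.1 h
      omega

theorem mnf : MnfStmt := by
  classical
  intro σ _ M B κ N hN hM hBM hB hflat
  have key : ∀ n : ℕ, ∀ (κ' : σ → ℕ) (N' : ℕ), MnfP M B κ N κ' N' →
      (M.filter fun a => ∑ i, κ' i * a i = N').card ≤ n →
      ∃ (κ'' : σ → ℕ) (N'' : ℕ), MnfP M B κ N κ'' N'' ∧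
        ∀ v : σ → ℚ, (∀ i, κ i = 0 → v i = 0) →
      (∀ a ∈ M, ∑ i, κ'' i * a i = N'' → 0 ≤ dq v a) → (∀ b ∈ B, dq v b = 0) →
      ∀ a ∈ M, ∑ i, κ'' i * a i = N'' → dq v a = 0 := by
    intro n
    induction n with
    | zero =>
      intro κ' N' hP hc
      refine ⟨κ', N', hP, fun v _ _ _ a ha haN => ?_⟩
      exfalso
      have h1 : a ∈ M.filter fun a => ∑ i, κ' i * a i = N' := Finset.mem_filter.2 ⟨ha, haN⟩
      have h2 := Finset.card_pos.2 ⟨a, h1⟩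
      omega
    | succ n ih =>
      intro κ' N' hP hc
      by_cases hv : ∀ v : σ → ℚ, (∀ i, κ i = 0 → v i = 0) →
          (∀ a ∈ M, ∑ i, κ' i * a i = N' → 0 ≤ dq v a) → (∀ b ∈ B, dq v b = 0) →
          ∀ a ∈ M, ∑ i, κ' i * a i = N' → dq v a = 0
      · exact ⟨κ', N', hP, hv⟩
      · push_neg at hv
        obtain ⟨v, hv0, hv1, hv2, a₀, ha₀, ha₁, ha₂⟩ := hv
        obtain ⟨κ'', N'', hP', hlt⟩ := mnf_step M B κ N hBM hflat κ' N' hP v hv0 hv1 hv2 a₀ ha₀ ha₁ ha₂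
        exact ih κ'' N'' hP' (by omega)
  obtain ⟨κ', N', ⟨q1, q2, q3, q4, q5⟩, hlast⟩ := key _ κ N
    ⟨hN, fun i => Iff.rfl, hM, hB, rfl⟩ le_rfl
  exact ⟨κ', N', q1, q2, q3, q4, q5, hlast⟩

end Pool.Agent.NDR.H13
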